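import Pool.Agent.Lib.MP_056111_lc.CL.Main

/-!
The abelian Polish groups in which the strongly Haar meager sets form a sigma-ideal.
-/

namespace Pool.Agent.Results.MP_056111_lc.Classification

/-- A subset `A` of an abelian Polish group `G` is strongly Haar meager if there are a Borel set
`B ⊇ A` and a nonempty compact set `C ⊆ G` such that `(B + g) ∩ C` is meager in the subspace `C`
for every `g ∈ G`. -/
def IsStronglyHaarMeager {G : Type} [AddCommGroup G] [TopologicalSpace G] (A : Set G) : Prop :=
  ∃ B : Set G, A ⊆ B ∧ @MeasurableSet G (borel G) B ∧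
    ∃ C : Set G, C.Nonempty ∧ IsCompact C ∧
      ∀ g : G, IsMeagre {x : C | (x : G) ∈ (fun b => b + g) '' B}

/-- A subset `A` of an abelian Polish group `G` is Haar meager if there are a Borel set `B ⊇ A`,
a nonempty compact metric space `K` and a continuous map `f : K → G` such that the preimage of
`B + g` under `f` is meager in `K` for every `g ∈ G`. -/
def IsHaarMeager {G : Type} [AddCommGroup G] [TopologicalSpace G] (A : Set G) : Prop :=
  ∃ B : Set G, A ⊆ B ∧ @MeasurableSet G (borel G) B ∧
    ∃ (K : Type) (_ : MetricSpace K) (_ : CompactSpace K) (_ : Nonempty K) (f : K → G),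
      Continuous f ∧ ∀ g : G, IsMeagre (f ⁻¹' ((fun b => b + g) '' B))

theorem result (G : Type) [AddCommGroup G] [TopologicalSpace G] [IsTopologicalAddGroup G]
    [PolishSpace G] :
    List.TFAE [
      ∀ A : ℕ → Set G, (∀ n, IsStronglyHaarMeager (A n)) → IsStronglyHaarMeager (⋃ n, A n),
      ∀ A B : Set G, IsStronglyHaarMeager A → IsStronglyHaarMeager B →
        IsStronglyHaarMeager (A ∪ B),
      ∀ A : Set G, IsHaarMeager A → IsStronglyHaarMeager A,
      ∀ D : Set G, IsCompact D → ∃ U ∈ nhds (0 : G), ∃ C : Set G, IsCompact C ∧ (0 : G) ∈ C ∧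
        ∀ x ∈ C ∩ U, ∀ d ∈ D ∩ U, x + d ∈ C] :=
  Pool.Agent.Lib.MP_056111_lc.CL.main G

end Pool.Agent.Results.MP_056111_lc.Classification
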