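import Mathlib
import Pool.Agent.Lib.MP_68925f_co.Uniq

/-!
MP_68925f_co, Q1: the sequence of nim squares is not 2-regular.
The checks below show that the mex definition `nimMul` obeys rules (a), (b), (c) of the problem.
-/

namespace Pool.Agent.Results.MP_68925f_co.NimSquares

open Pool.Agent.Lib.MP_68925f_co

/-- Rule (a). -/
theorem check_rule_a (a n : ℕ) (h : n < 2 ^ 2 ^ a) : nimMul (2 ^ 2 ^ a) n = 2 ^ 2 ^ a * n :=
  ruleA (tower a).1 n h

/-- Rule (b). -/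
theorem check_rule_b (a : ℕ) : nimMul (2 ^ 2 ^ a) (2 ^ 2 ^ a) = 3 * 2 ^ 2 ^ a / 2 := by
  have hn : 1 ≤ 2 ^ a := Nat.one_le_two_pow
  rw [ruleB (tower a).1 (tower a).2 hn]
  obtain ⟨m, hm⟩ : ∃ m, 2 ^ a = m + 1 := ⟨2 ^ a - 1, by omega⟩
  rw [hm, Nat.add_sub_cancel, pow_succ]
  omega

/-- Rule (c), and commutativity. -/
theorem check_rule_c (x y z : ℕ) :
    nimMul (nimMul x y) z = nimMul x (nimMul y z) ∧
    nimMul x (y ^^^ z) = nimMul x y ^^^ nimMul x z ∧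
    nimMul (x ^^^ y) z = nimMul x z ^^^ nimMul y z ∧
    nimMul x y = nimMul y x :=
  ⟨nimMul_assoc x y z, nimMul_xor x y z, xor_nimMul x y z, nimMul_comm x y⟩

/-- Rules (a), (b), (c) and commutativity determine the product. -/
theorem check_unique (op : ℕ → ℕ → ℕ)
    (ha : ∀ a n, n < 2 ^ 2 ^ a → op (2 ^ 2 ^ a) n = 2 ^ 2 ^ a * n)
    (hb : ∀ a, op (2 ^ 2 ^ a) (2 ^ 2 ^ a) = 3 * 2 ^ 2 ^ a / 2)
    (hs : ∀ x y z, op (op x y) z = op x (op y z))
    (hd : ∀ x y z, op x (y ^^^ z) = op x y ^^^ op x z) (hc : ∀ x y, op x y = op y x) (x y : ℕ) :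
    op x y = nimMul x y :=
  unique_of_rules op ha hb hs hd hc x y

/-- The sequence `n ↦ n ⊗ n` of nim squares is not 2-regular. -/
theorem result : ¬ IsTwoRegular (fun n => (nimMul n n : ℤ)) :=
  not_regular_sq

end Pool.Agent.Results.MP_68925f_co.NimSquares
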